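import Pool.Agent.Q206.XK.Bas

/-! Project XK (owner helper113), job KR2: the clique range. -/

set_option autoImplicit false

namespace Pool.Agent.Q206.XK

open Finset Pool.Agent.Q113.XM Pool.Agent.Q113.XU Pool.Agent.Q113.XV Pool.Agent.Q54.EM
  Pool.Agent.W890.SF Pool.Agent.W593.IR Pool.Agent.Q113.XK

theorem t_KR2 : S_CRF → S_KRA → S_STC → S_BRG → S_TYC → S_CLF → S_KR2 := by
  intro hCRF hKRA hSTC hBRG hTYC hCLF k hk hL c hc e0 ξ he0 hξ
  have hk2 : 2 ≤ k := by omega
  have hk0 : (0 : ℝ) < k := by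
    have : 0 < k := by omega
    exact_mod_cast this
  have hk3 : (3 : ℝ) ≤ k := by exact_mod_cast hk
  obtain ⟨hc0, hc1, hc2⟩ := hc
  have hc : Crt k c := ⟨hc0, hc1, hc2⟩
  obtain ⟨-, hmv, hpow⟩ := hCRF k hk2 c hc
  obtain ⟨γ, hγ, n1, H1⟩ := hCLF k hk c hc0 hpow
  obtain ⟨γ', hγ', n2, H2⟩ := hTYC k hk2 (c / 2) (γ / 2) (by linarith) (by linarith)
  obtain ⟨η, hη, H3⟩ := hSTC k hk2 hL c hc e0 ξ γ' he0 hξ hγ'
  obtain ⟨n3, H4⟩ := hKRA k hk2 η hη
  obtain ⟨n4, hn4⟩ := exists_nat_ge (4 * k / γ)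
  obtain ⟨n5, hn5⟩ := exists_nat_ge (4 / c)
  obtain ⟨n6, hn6⟩ := exists_nat_ge (1 / e0)
  obtain ⟨n7, hn7⟩ := exists_nat_ge (2 / γ')
  refine ⟨max (max (max n1 n2) (max n3 n4)) (max (max n5 n6) (max n7 1)), ?_⟩
  intro n hn h hh1 hh2 y hy hyh
  have m1 : n1 ≤ n := (((le_max_left _ _).trans (le_max_left _ _)).trans (le_max_left _ _)).trans hn
  have m2 : n2 ≤ n := (((le_max_right _ _).trans (le_max_left _ _)).trans (le_max_left _ _)).trans hn
  have m3 : n3 ≤ n := (((le_max_left _ _).trans (le_max_right _ _)).trans (le_max_left _ _)).trans hn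
  have m4 : n4 ≤ n := (((le_max_right _ _).trans (le_max_right _ _)).trans (le_max_left _ _)).trans hn
  have m5 : n5 ≤ n := (((le_max_left _ _).trans (le_max_left _ _)).trans (le_max_right _ _)).trans hn
  have m6 : n6 ≤ n := (((le_max_right _ _).trans (le_max_left _ _)).trans (le_max_right _ _)).trans hn
  have m7 : n7 ≤ n := (((le_max_left _ _).trans (le_max_right _ _)).trans (le_max_right _ _)).trans hn
  have m8 : 1 ≤ n := (((le_max_right _ _).trans (le_max_right _ _)).trans (le_max_right _ _)).trans hn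
  have m4' : (n4 : ℝ) ≤ n := by exact_mod_cast m4
  have m5' : (n5 : ℝ) ≤ n := by exact_mod_cast m5
  have m6' : (n6 : ℝ) ≤ n := by exact_mod_cast m6
  have m7' : (n7 : ℝ) ≤ n := by exact_mod_cast m7
  have hn0 : (0 : ℝ) < n := by exact_mod_cast m8
  have hh0 : 0 ≤ h := by
    rw [← hyh]
    exact sum_nonneg fun v _ => hy v
  have hkh : (k : ℝ) * h < n := by
    have : 0 < ξ * n := by positivity
    linarith
  by_contra hcon
  rw [not_le] at hcon
  have hcard := lt_of_le_of_lt (le_max_right _ _) hcon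
  -- the uniform law
  set x : ℝ := h / n with hx
  have hxn : x * n = h := by
    rw [hx]
    field_simp
  have hcx : c + e0 ≤ x := by
    rw [hx, le_div_iff₀ hn0]
    exact hh1
  have hkx : (k : ℝ) * x ≤ 1 - ξ := by
    have : (k : ℝ) * x * n ≤ (1 - ξ) * n := by
      rw [mul_assoc, hxn]
      exact hh2
    exact le_of_mul_le_mul_right this hn0
  have hNG := H4 n m3 h hh0 hkh y hy hcon.le
  have : Nonempty (Fin n) := ⟨⟨0, m8⟩⟩
  obtain ⟨hW, hmu, hUP⟩ := hBRG (Fin n) y hy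
  have hmux : mu (fun _ : Fin n => 1 / (Fintype.card (Fin n) : ℝ)) y ≤ x := by
    rw [hmu, Fintype.card_fin, hyh]
  have hmvx : mv k x = ((k : ℝ) * x) ^ k := hmv x (by linarith) (by linarith)
  have hU : ((k : ℝ) * x) ^ k - η ≤ UP (fun _ : Fin n => 1 / (Fintype.card (Fin n) : ℝ)) y k 1 := by
    have h2 := hUP k 1
    rw [← hmvx]
    have h3 : (mv k x - η) * (n : ℝ) ^ k ≤
        UP (fun _ : Fin n => 1 / (Fintype.card (Fin n) : ℝ)) y k 1 * (n : ℝ) ^ k := by
      have h4 : UP (fun _ : Fin n => 1 / (Fintype.card (Fin n) : ℝ)) y k 1 * (n : ℝ) ^ k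
          = (NG y k : ℝ) := by
        rw [Fintype.card_fin] at h2
        rw [Fintype.card_fin]
        exact h2
      rw [h4]
      exact hNG
    exact le_of_mul_le_mul_right h3 (pow_pos hn0 k)
  have hst := H3 x hcx hkx (Fin n) (fun _ : Fin n => 1 / (Fintype.card (Fin n) : ℝ)) y hW hmux hU
  have hex : (((univ.filter (fun v : Fin n => γ' < y v ∧ γ' < |y v - 1 / (k : ℝ)|)).card : ℕ) : ℝ)
      ≤ γ' * n := by
    have h5 : (∑ i : Fin n, if γ' < y i ∧ γ' < |y i - 1 / (k : ℝ)| then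
        (1 / (Fintype.card (Fin n) : ℝ)) else 0) =
        (((univ.filter (fun v : Fin n => γ' < y v ∧ γ' < |y v - 1 / (k : ℝ)|)).card : ℕ) : ℝ)
          * (1 / (n : ℝ)) := by
      rw [← Finset.sum_filter, Finset.sum_const, nsmul_eq_mul, Fintype.card_fin]
    rw [h5, mul_one_div, div_le_iff₀ hn0] at hst
    exact hst
  -- the clique
  set m := ⌊(k : ℝ) * h⌋₊ with hm
  have hmn : m + 1 ≤ n := floor_lt_of hkh hh0
  have hmh : (k : ℝ) * h < m + 1 := Nat.lt_floor_add_one _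
  have hg2 : 2 * (k : ℝ) ≤ γ / 2 * n := by
    have := (div_le_iff₀ hγ).mp (hn4.trans m4')
    linarith
  have hg5 : 4 ≤ c * n := by
    have := (div_le_iff₀ hc0).mp (hn5.trans m5')
    linarith
  have hg6 : 1 ≤ e0 * n := by
    have := (div_le_iff₀ he0).mp (hn6.trans m6')
    linarith
  have hg7 : 2 ≤ γ' * n := by
    have := (div_le_iff₀ hγ').mp (hn7.trans m7')
    linarith
  have hkm : (k : ℝ) * c * n ≤ m := by
    have h1 : (k : ℝ) * ((c + e0) * n) ≤ k * h := mul_le_mul_of_nonneg_left hh1 hk0.le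
    nlinarith
  have hkm1 : k ≤ m + 1 := by
    have : (k : ℝ) ≤ m + 1 := by nlinarith
    exact_mod_cast this
  obtain ⟨a1, a2, a3⟩ := arith (show 1 ≤ k by omega) hkm1
  set s := (m + 1) / k - 1 with hs
  have a2' : (m : ℝ) + 2 ≤ k * s + 2 * k := by exact_mod_cast a2
  have hs1 : c / 2 * n ≤ (s : ℝ) := by
    have h1 : (k : ℝ) * (c / 2 * n) ≤ k * s := by nlinarith
    exact le_of_mul_le_mul_left h1 hk0
  have hhs : h ≤ s + 2 := by
    have h1 : (k : ℝ) * h ≤ k * (s + 2) := by linarith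
    exact le_of_mul_le_mul_left h1 hk0
  obtain ⟨T, hT1, hT2⟩ := H2 n m2 (LF k y) (LF_unif y) s hs1 (a1.trans hmn)
    ((Nat.choose_le_choose k a3).trans hcard.le) y hy (by linarith) hex (by
      have h0 : (LF k y).filter (fun e => ∑ v ∈ e, y v < 1) = ∅ := by
        apply filter_eq_empty_iff.mpr
        intro e he
        have := LF_cover y e he
        linarith
      rw [h0]
      simp
      positivity)
  refine fin_clq (by omega) hy hyh (H1 n m1 (LF k y) (LF_unif y) m T hkm hmn (by linarith) ?_ hcard)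
  intro v hv
  refine (hT2 v hv).trans (mul_le_mul_of_nonneg_right (by linarith) (by positivity))

end Pool.Agent.Q206.XK
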