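import Pool.Agent.Q206.XK.Bas
import Pool.Agent.Q102.XU.WST

/-! Project XK (owner helper113), job KR3: the window. -/

set_option autoImplicit false

namespace Pool.Agent.Q206.XK

open Finset Pool.Agent.Q113.XM Pool.Agent.Q113.XU Pool.Agent.Q113.XV Pool.Agent.Q54.EM
  Pool.Agent.W890.SF Pool.Agent.W593.IR Pool.Agent.Q113.XK

theorem t_KR3 : S_CRF → S_KRA → S_MINC → S_FAC → S_DIT → S_SFN → S_TYC → S_CLF → S_KR3 := by
  intro hCRF hKRA hMINC _ hDIT hSFN hTYC hCLF k hk hL hW c hc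
  have hk2 : 2 ≤ k := by omega
  have hk0 : (0 : ℝ) < k := by
    have : 0 < k := by omega
    exact_mod_cast this
  have hk3 : (3 : ℝ) ≤ k := by exact_mod_cast hk
  obtain ⟨hc0, hc1, hc2⟩ := hc
  have hc : Crt k c := ⟨hc0, hc1, hc2⟩
  obtain ⟨-, hmv, hpow⟩ := hCRF k hk2 c hc
  -- a smaller density
  obtain ⟨c', hc'0, hc'c, hpow'⟩ : ∃ c' : ℝ, 0 < c' ∧ c' < c ∧
      1 < 2 * ((k : ℝ) * c') ^ (k - 1) := by
    have hcont : ContinuousAt (fun t : ℝ => 2 * ((k : ℝ) * t) ^ (k - 1)) c := by fun_prop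
    have h1 : ∀ᶠ t in nhds c, 1 < 2 * ((k : ℝ) * t) ^ (k - 1) :=
      hcont.eventually (lt_mem_nhds hpow)
    have h2 : ∀ᶠ t in nhds c, 0 < t := lt_mem_nhds hc0
    have h3 : ∀ᶠ t in nhdsWithin c (Set.Iio c), 0 < t ∧ 1 < 2 * ((k : ℝ) * t) ^ (k - 1) :=
      nhdsWithin_le_nhds (h2.and h1)
    obtain ⟨t, ⟨ht1, ht2⟩, ht3⟩ := (h3.and self_mem_nhdsWithin).exists
    exact ⟨t, ht1, ht3, ht2⟩
  set ξ : ℝ := (1 - k * c) / 2 with hξ
  have hξ0 : 0 < ξ := by
    rw [hξ]
    linarith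
  obtain ⟨γ, hγ, n1, H1⟩ := hCLF k hk c' hc'0 hpow'
  obtain ⟨g2, hg2, n2, H2⟩ := hTYC k hk2 (c / 4) (γ / 2) (by linarith) (by linarith)
  obtain ⟨γ3, hγ3, n3, H3⟩ := hSFN k hk2 ξ hξ0
  obtain ⟨g4, hg4, n4, H4⟩ := hDIT k hk2 (c / 4) γ3 (by linarith) hγ3
  obtain ⟨g, hgd⟩ : ∃ g : ℝ, g = min g2 g4 := ⟨_, rfl⟩
  have hg : 0 < g := by rw [hgd]; exact lt_min hg2 hg4
  have hgg2 : g ≤ g2 := by rw [hgd]; exact min_le_left _ _
  have hgg4 : g ≤ g4 := by rw [hgd]; exact min_le_right _ _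
  obtain ⟨ε1, hε1, n5, H5⟩ := hW c hc g hg
  obtain ⟨n6, H6⟩ := hKRA k hk2 (ε1 / 2) (by linarith)
  obtain ⟨ε, hεd⟩ : ∃ ε : ℝ, ε = min (min ε1 (ε1 / (2 * (k : ℝ) ^ 2)))
    (min ((c - c') / 2) (min (c / 4) (ξ / (2 * k)))) := ⟨_, rfl⟩
  have hcc : 0 < (c - c') / 2 := by linarith
  have hε : 0 < ε := by
    rw [hεd]
    refine lt_min (lt_min hε1 (by positivity)) (lt_min hcc (lt_min (by linarith) (by positivity)))
  have hεa : ε ≤ ε1 := by rw [hεd]; exact (min_le_left _ _).trans (min_le_left _ _)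
  have hεb : ε ≤ ε1 / (2 * (k : ℝ) ^ 2) := by
    rw [hεd]; exact (min_le_left _ _).trans (min_le_right _ _)
  have hεc : ε ≤ (c - c') / 2 := by rw [hεd]; exact (min_le_right _ _).trans (min_le_left _ _)
  have hεe : ε ≤ c / 4 := by
    rw [hεd]; exact (min_le_right _ _).trans ((min_le_right _ _).trans (min_le_left _ _))
  have hεf : ε ≤ ξ / (2 * k) := by
    rw [hεd]; exact (min_le_right _ _).trans ((min_le_right _ _).trans (min_le_right _ _))
  obtain ⟨n7, hn7⟩ := exists_nat_ge (4 * k / γ)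
  obtain ⟨n8, hn8⟩ := exists_nat_ge (8 / c)
  obtain ⟨n9, hn9⟩ := exists_nat_ge (2 / g)
  obtain ⟨n10, hn10⟩ := exists_nat_ge (2 * k / ξ)
  obtain ⟨n11, hn11⟩ := exists_nat_ge (2 / (c - c'))
  refine ⟨ε, hε, max (max (max n1 n2) (max n3 n4)) (max (max (max n5 n6) (max n7 n8))
    (max (max n9 n10) (max n11 1))), ?_⟩
  intro n hn h hh y hy hyh
  have m1 : n1 ≤ n := (((le_max_left _ _).trans (le_max_left _ _)).trans (le_max_left _ _)).trans hn
  have m2 : n2 ≤ n := (((le_max_right _ _).trans (le_max_left _ _)).trans (le_max_left _ _)).trans hn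
  have m3 : n3 ≤ n := (((le_max_left _ _).trans (le_max_right _ _)).trans (le_max_left _ _)).trans hn
  have m4 : n4 ≤ n := (((le_max_right _ _).trans (le_max_right _ _)).trans (le_max_left _ _)).trans hn
  have hnA := (le_max_right _ _).trans hn
  have m5 : n5 ≤ n := (((le_max_left _ _).trans (le_max_left _ _)).trans (le_max_left _ _)).trans hnA
  have m6 : n6 ≤ n := (((le_max_right _ _).trans (le_max_left _ _)).trans (le_max_left _ _)).trans hnA
  have m7 : n7 ≤ n := (((le_max_left _ _).trans (le_max_right _ _)).trans (le_max_left _ _)).trans hnA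
  have m8 : n8 ≤ n := (((le_max_right _ _).trans (le_max_right _ _)).trans (le_max_left _ _)).trans hnA
  have m9 : n9 ≤ n := (((le_max_left _ _).trans (le_max_left _ _)).trans (le_max_right _ _)).trans hnA
  have m10 : n10 ≤ n :=
    (((le_max_right _ _).trans (le_max_left _ _)).trans (le_max_right _ _)).trans hnA
  have m11 : n11 ≤ n :=
    (((le_max_left _ _).trans (le_max_right _ _)).trans (le_max_right _ _)).trans hnA
  have m12 : 1 ≤ n := (((le_max_right _ _).trans (le_max_right _ _)).trans (le_max_right _ _)).trans hnA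
  have m7' : (n7 : ℝ) ≤ n := by exact_mod_cast m7
  have m8' : (n8 : ℝ) ≤ n := by exact_mod_cast m8
  have m9' : (n9 : ℝ) ≤ n := by exact_mod_cast m9
  have m10' : (n10 : ℝ) ≤ n := by exact_mod_cast m10
  have m11' : (n11 : ℝ) ≤ n := by exact_mod_cast m11
  have hn0 : (0 : ℝ) < n := by exact_mod_cast m12
  have q7 : 2 * (k : ℝ) ≤ γ / 2 * n := by
    have := (div_le_iff₀ hγ).mp (hn7.trans m7')
    linarith
  have q8 : 8 ≤ c * n := by
    have := (div_le_iff₀ hc0).mp (hn8.trans m8')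
    linarith
  have q9 : 2 ≤ g * n := by
    have := (div_le_iff₀ hg).mp (hn9.trans m9')
    linarith
  have q10 : 2 * (k : ℝ) ≤ ξ * n := by
    have := (div_le_iff₀ hξ0).mp (hn10.trans m10')
    linarith
  have q11 : 2 ≤ (c - c') * n := by
    have := (div_le_iff₀ (by linarith : 0 < c - c')).mp (hn11.trans m11')
    linarith
  rw [abs_le] at hh
  have hh0 : 0 ≤ h := by
    rw [← hyh]
    exact sum_nonneg fun v _ => hy v
  have p1 : ε * n ≤ c / 4 * n := mul_le_mul_of_nonneg_right hεe hn0.le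
  have p2 : ε * n ≤ (c - c') / 2 * n := mul_le_mul_of_nonneg_right hεc hn0.le
  have p3 : (k : ℝ) * (ε * n) ≤ ξ / 2 * n := by
    have h1 : (k : ℝ) * ε ≤ ξ / 2 := by
      calc (k : ℝ) * ε ≤ k * (ξ / (2 * k)) := mul_le_mul_of_nonneg_left hεf hk0.le
        _ = ξ / 2 := by field_simp
    calc (k : ℝ) * (ε * n) = (k * ε) * n := by ring
      _ ≤ ξ / 2 * n := mul_le_mul_of_nonneg_right h1 hn0.le
  have hkhU : (k : ℝ) * h ≤ k * c * n + ξ / 2 * n := by
    have h1 : (k : ℝ) * h ≤ k * (c * n + ε * n) := mul_le_mul_of_nonneg_left (by linarith) hk0.le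
    linarith
  have hkc2 : (k : ℝ) * c * n = n - 2 * ξ * n := by
    rw [hξ]
    ring
  have hξn : 0 < ξ * n := by positivity
  have hkh : (k : ℝ) * h < n := by linarith
  by_contra hcon
  rw [not_le] at hcon
  have hcard := lt_of_le_of_lt (le_max_right _ _) hcon
  have hcard1 := lt_of_le_of_lt (le_max_left _ _) hcon
  -- the cover with small support
  obtain ⟨y', hy'0, hy'c, hy's, hy'k⟩ := hMINC (Fin n) k (LF k y) y (by omega) (LF_unif y) hy
    (LF_cover y)
  have hsub : LF k y ⊆ LF k y' := by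
    intro e he
    have h1 := hy'c e he
    unfold LF at he ⊢
    rw [mem_filter] at he ⊢
    exact ⟨he.1, h1⟩
  have hNG := H6 n m6 h hh0 hkh y' hy'0 (hcon.le.trans (card_le_card hsub))
  have hpow2 : ((k : ℝ) * c) ^ k - ε1 / 2 ≤ mv k (h / n) := by
    have hx : c - ε ≤ h / n := by
      rw [le_div_iff₀ hn0]
      linarith
    have h1 : ((k : ℝ) * (c - ε)) ^ k ≤ mv k (h / n) := by
      refine le_trans ?_ (le_max_right _ _)
      apply pow_le_pow_left₀ (mul_nonneg hk0.le (by linarith))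
      exact mul_le_mul_of_nonneg_left hx hk0.le
    have h2 := Pool.Agent.Q102.XU.pow_sub_le_mul (a := (k : ℝ) * c) (b := (k : ℝ) * (c - ε))
      (mul_nonneg hk0.le (by linarith)) (mul_le_mul_of_nonneg_left (by linarith) hk0.le)
      hc1.le k
    have h3 : (k : ℝ) * ((k : ℝ) * c - (k : ℝ) * (c - ε)) = (k : ℝ) ^ 2 * ε := by ring
    have h4 : (k : ℝ) ^ 2 * ε ≤ ε1 / 2 := by
      calc (k : ℝ) ^ 2 * ε ≤ (k : ℝ) ^ 2 * (ε1 / (2 * (k : ℝ) ^ 2)) :=
            mul_le_mul_of_nonneg_left hεb (by positivity)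
        _ = ε1 / 2 := by field_simp
    linarith
  have hNG2 : (((k : ℝ) * c) ^ k - ε1) * (n : ℝ) ^ k ≤ (NG y' k : ℝ) :=
    (mul_le_mul_of_nonneg_right (by linarith) (by positivity)).trans hNG
  have hy'le : ∑ v, y' v ≤ h := by
    rw [← hyh]
    exact hy's
  have hsum1 : ∑ v, y' v ≤ (c + ε1) * n := by
    have : ε * n ≤ ε1 * n := mul_le_mul_of_nonneg_right hεa hn0.le
    linarith
  have hfe : ∀ z : Fin n → ℝ, (∀ e ∈ LF k y, 1 ≤ ∑ v ∈ e, z v) → ∀ g' : ℝ, 0 < g' →
      (((LF k y).filter (fun e => ∑ v ∈ e, z v < 1)).card : ℝ) ≤ g' * (n : ℝ) ^ k := by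
    intro z hz g' hg'
    have h0 : (LF k y).filter (fun e => ∑ v ∈ e, z v < 1) = ∅ := by
      apply filter_eq_empty_iff.mpr
      intro e he
      have := hz e he
      linarith
    rw [h0]
    simp
    positivity
  rcases H5 n m5 y' hy'0 hsum1 hy'k hNG2 with hA | hA
  · -- the star
    set s := ⌊h⌋₊ with hs
    have hsh : (s : ℝ) ≤ h := Nat.floor_le hh0
    have hhs : h < s + 1 := Nat.lt_floor_add_one h
    have hs1 : c / 4 * n ≤ (s : ℝ) := by linarith
    have h2s : 2 * s ≤ n := by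
      have : (2 : ℝ) * s ≤ n := by nlinarith
      exact_mod_cast this
    have hB : (((univ.filter (fun v : Fin n => g4 < y' v ∧ y' v < 1 - g4)).card : ℕ) : ℝ) ≤
        g4 * n := by
      refine le_trans ?_ (hA.trans (mul_le_mul_of_nonneg_right hgg4 hn0.le))
      have h2 : (univ.filter (fun v : Fin n => g4 < y' v ∧ y' v < 1 - g4)).card ≤
          (univ.filter (fun v : Fin n => g < y' v ∧ y' v < 1 - g)).card := by
        apply card_le_card
        intro v hv
        rw [mem_filter] at hv ⊢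
        exact ⟨hv.1, by linarith [hv.2.1], by linarith [hv.2.2]⟩
      exact_mod_cast h2
    have hgn : g * n ≤ g4 * n := mul_le_mul_of_nonneg_right hgg4 hn0.le
    have hD := H4 n m4 (LF k y) (LF_unif y) s hs1 h2s hcard1.le y' hy'0 (by linarith) hB
      (hfe y' hy'c g4 hg4)
    have hkξ : (k : ℝ) * (s + 1) ≤ (1 - ξ) * n := by
      have h1 : (k : ℝ) * s ≤ k * h := mul_le_mul_of_nonneg_left hsh hk0.le
      linarith
    have hM := H3 n m3 (LF k y) (LF_unif y) s hkξ hD hcard1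
    have h1 := hasM_dual hM hy (LF_cover y)
    rw [hyh] at h1
    push_cast at h1
    linarith
  · -- the clique
    set m := ⌊(k : ℝ) * h⌋₊ with hm
    have hmn : m + 1 ≤ n := floor_lt_of hkh hh0
    have hmh : (k : ℝ) * h < m + 1 := Nat.lt_floor_add_one _
    have hkm : (k : ℝ) * c' * n ≤ m := by
      have h1 : (k : ℝ) * (c * n - ε * n) ≤ k * h := mul_le_mul_of_nonneg_left (by linarith) hk0.le
      have h2 : (k : ℝ) * (c' * n + 1) ≤ k * (c * n - ε * n) := by
        apply mul_le_mul_of_nonneg_left _ hk0.le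
        linarith
      linarith
    have hkm2 : (k : ℝ) * (c / 2 * n) ≤ m := by
      have h1 : (k : ℝ) * (c * n - ε * n) ≤ k * h := mul_le_mul_of_nonneg_left (by linarith) hk0.le
      have h2 : (k : ℝ) * (c / 2 * n + 1) ≤ k * (c * n - ε * n) := by
        apply mul_le_mul_of_nonneg_left _ hk0.le
        linarith
      linarith
    have hkm1 : k ≤ m + 1 := by
      have : (k : ℝ) ≤ m + 1 := by
        have h3 : (k : ℝ) * 1 ≤ k * (c / 2 * n) := mul_le_mul_of_nonneg_left (by linarith) hk0.le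
        linarith
      exact_mod_cast this
    obtain ⟨a1, a2, a3⟩ := arith (show 1 ≤ k by omega) hkm1
    set s := (m + 1) / k - 1 with hs
    have a2' : (m : ℝ) + 2 ≤ k * s + 2 * k := by exact_mod_cast a2
    have hs1 : c / 4 * n ≤ (s : ℝ) := by
      have h0 : (k : ℝ) * (c / 4 * n + 2) ≤ k * (c / 2 * n) := by
        apply mul_le_mul_of_nonneg_left _ hk0.le
        linarith
      have h1 : (k : ℝ) * (c / 4 * n) ≤ k * s := by linarith
      exact le_of_mul_le_mul_left h1 hk0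
    have hhs : h ≤ s + 2 := by
      have h1 : (k : ℝ) * h ≤ k * (s + 2) := by linarith
      exact le_of_mul_le_mul_left h1 hk0
    have hB : (((univ.filter (fun v : Fin n => g2 < y' v ∧ g2 < |y' v - 1 / (k : ℝ)|)).card : ℕ) : ℝ) ≤
        g2 * n := by
      refine le_trans ?_ (hA.trans (mul_le_mul_of_nonneg_right hgg2 hn0.le))
      have h2 : (univ.filter (fun v : Fin n => g2 < y' v ∧ g2 < |y' v - 1 / (k : ℝ)|)).card ≤
          (univ.filter (fun v : Fin n => g < y' v ∧ g < |y' v - 1 / (k : ℝ)|)).card := by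
        apply card_le_card
        intro v hv
        rw [mem_filter] at hv ⊢
        exact ⟨hv.1, by linarith [hv.2.1], by linarith [hv.2.2]⟩
      exact_mod_cast h2
    have hgn : g * n ≤ g2 * n := mul_le_mul_of_nonneg_right hgg2 hn0.le
    obtain ⟨T, hT1, hT2⟩ := H2 n m2 (LF k y) (LF_unif y) s hs1 (a1.trans hmn)
      ((Nat.choose_le_choose k a3).trans hcard.le) y' hy'0 (by linarith) hB (hfe y' hy'c g2 hg2)
    refine fin_clq (by omega) hy hyh (H1 n m1 (LF k y) (LF_unif y) m T hkm hmn (by linarith) ?_ hcard)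
    intro v hv
    refine (hT2 v hv).trans (mul_le_mul_of_nonneg_right (by linarith) (by positivity))

end Pool.Agent.Q206.XK
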