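import Pool.Agent.Q206.XK.Bas

/-! Project XK (owner helper113), job KR4: the range near `1/k`. -/

set_option autoImplicit false

namespace Pool.Agent.Q206.XK

open Finset Pool.Agent.Q113.XM Pool.Agent.Q113.XU Pool.Agent.Q113.XV Pool.Agent.Q54.EM
  Pool.Agent.W890.SF Pool.Agent.W593.IR Pool.Agent.Q113.XK

theorem t_KR4 : S_NCP → S_CLF → S_KR4 := by
  intro hNCP hCLF k hk
  have hk0 : (0 : ℝ) < k := by
    have : 0 < k := by omega
    exact_mod_cast this
  have hk3 : (3 : ℝ) ≤ k := by exact_mod_cast hk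
  set c : ℝ := (1 - 1 / (2 * k)) / k with hc
  have hkc : (k : ℝ) * c = 1 - 1 / (2 * k) := by
    rw [hc]
    field_simp
  have hi : 1 / (2 * (k : ℝ)) ≤ 1 / 6 := by
    apply one_div_le_one_div_of_le (by norm_num)
    linarith
  have hi0 : 0 < 1 / (2 * (k : ℝ)) := by positivity
  have hc0 : 0 < c := by
    rw [hc]
    apply div_pos _ hk0
    linarith
  have hpow : 1 < 2 * ((k : ℝ) * c) ^ (k - 1) := by
    rw [hkc]
    have h1 := one_add_mul_le_pow (a := -(1 / (2 * (k : ℝ)))) (by linarith) (k - 1)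
    have h2 : ((k - 1 : ℕ) : ℝ) = (k : ℝ) - 1 := by
      rw [Nat.cast_sub (by omega)]
      simp
    rw [h2] at h1
    have h3 : 1 + ((k : ℝ) - 1) * -(1 / (2 * (k : ℝ))) = 1 / 2 + 1 / (2 * k) := by
      field_simp
      ring
    rw [h3] at h1
    have h4 : (1 + -(1 / (2 * (k : ℝ)))) = 1 - 1 / (2 * k) := by ring
    rw [h4] at h1
    linarith
  obtain ⟨γ, hγ, n1, H1⟩ := hCLF k hk c hc0 hpow
  obtain ⟨ξ', hξ', n2, H2⟩ := hNCP k (by omega) (γ / 2) (by linarith)
  set ξ : ℝ := min (ξ' / 2) (1 / (4 * k)) with hξ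
  have hξ0 : 0 < ξ := lt_min (by linarith) (by positivity)
  obtain ⟨n3, hn3⟩ := exists_nat_ge (4 * k / ξ')
  obtain ⟨n4, hn4⟩ := exists_nat_ge (4 * k / γ)
  refine ⟨ξ, hξ0, max (max n1 n2) (max (max n3 n4) (8 * k)), ?_⟩
  intro n hn h hh1 hh2 y hy hyh
  have m1 : n1 ≤ n := ((le_max_left _ _).trans (le_max_left _ _)).trans hn
  have m2 : n2 ≤ n := ((le_max_right _ _).trans (le_max_left _ _)).trans hn
  have m3 : n3 ≤ n := (((le_max_left _ _).trans (le_max_left _ _)).trans (le_max_right _ _)).trans hn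
  have m4 : n4 ≤ n := (((le_max_right _ _).trans (le_max_left _ _)).trans (le_max_right _ _)).trans hn
  have m5 : 8 * k ≤ n := ((le_max_right _ _).trans (le_max_right _ _)).trans hn
  have m3' : (n3 : ℝ) ≤ n := by exact_mod_cast m3
  have m4' : (n4 : ℝ) ≤ n := by exact_mod_cast m4
  have m5' : 8 * (k : ℝ) ≤ n := by exact_mod_cast m5
  have hn0 : (0 : ℝ) < n := by linarith
  have hh0 : 0 ≤ h := by
    rw [← hyh]
    exact sum_nonneg fun v _ => hy v
  by_contra hcon
  rw [not_le] at hcon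
  have hcard := lt_of_le_of_lt (le_max_right _ _) hcon
  set m := ⌊(k : ℝ) * h⌋₊ with hm
  have hmn : m + 1 ≤ n := floor_lt_of hh2 hh0
  have hmh : (k : ℝ) * h < m + 1 := Nat.lt_floor_add_one _
  have hξn : ξ * n ≤ 1 / (4 * k) * n := mul_le_mul_of_nonneg_right (min_le_right _ _) hn0.le
  have hξn2 : ξ * n ≤ ξ' / 2 * n := mul_le_mul_of_nonneg_right (min_le_left _ _) hn0.le
  have e1 : 1 / (4 * (k : ℝ)) * n = 1 / (2 * k) * n / 2 := by
    field_simp
    norm_num
  have e2 : 2 ≤ 1 / (4 * (k : ℝ)) * n := by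
    rw [div_mul_eq_mul_div, one_mul, le_div_iff₀ (by positivity)]
    linarith
  have hkm : (k : ℝ) * c * n ≤ m := by
    rw [hkc]
    nlinarith
  have hkm1 : k ≤ m + 1 := by
    have : (k : ℝ) ≤ m + 1 := by
      have h3 : (1 / 6 : ℝ) * n ≤ (k : ℝ) * c * n := by
        apply mul_le_mul_of_nonneg_right _ hn0.le
        rw [hkc]
        linarith
      nlinarith
    exact_mod_cast this
  obtain ⟨a1, a2, a3⟩ := arith (show 1 ≤ k by omega) hkm1
  set s := (m + 1) / k - 1 with hs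
  have a2' : (m : ℝ) + 2 ≤ k * s + 2 * k := by exact_mod_cast a2
  have hg1 : 2 * (k : ℝ) ≤ ξ' / 2 * n := by
    have := (div_le_iff₀ hξ').mp (hn3.trans m3')
    linarith
  have hg2 : 2 * (k : ℝ) ≤ γ / 2 * n := by
    have := (div_le_iff₀ hγ).mp (hn4.trans m4')
    linarith
  obtain ⟨T, hT1, hT2⟩ := H2 n m2 (LF k y) (LF_unif y) s (a1.trans hmn) (by linarith)
    ((Nat.choose_le_choose k a3).trans hcard.le)
  refine fin_clq (by omega) hy hyh (H1 n m1 (LF k y) (LF_unif y) m T hkm hmn (by linarith) ?_ hcard)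
  intro v hv
  refine (hT2 v hv).trans (mul_le_mul_of_nonneg_right (by linarith) (by positivity))

end Pool.Agent.Q206.XK
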