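import Pool.Agent.Q113.XK.Stm

/-! Project XK (owner helper113), job KRM: the main theorem from the four ranges. -/

set_option autoImplicit false

namespace Pool.Agent.Q206.XK

open Finset Pool.Agent.Q113.XM Pool.Agent.Q113.XU Pool.Agent.Q113.XV Pool.Agent.Q54.EM
  Pool.Agent.W890.SF Pool.Agent.W593.IR Pool.Agent.Q113.XK

theorem t_KRM : S_CRU → S_KR1 → S_KR2 → S_KR3 → S_KR4 → S_KRM := by
  intro hCRU hK1 hK2 hK3 hK4 k hk hL hW
  obtain ⟨c, hc, -⟩ := hCRU k (by omega)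
  obtain ⟨ε, hε, n3, H3⟩ := hK3 k hk hL hW c hc
  obtain ⟨n1, H1⟩ := hK1 k hk hL c hc ε hε
  obtain ⟨ξ, hξ, n4, H4⟩ := hK4 k hk
  obtain ⟨n2, H2⟩ := hK2 k hk hL c hc ε ξ hε hξ
  refine ⟨max (max n1 n2) (max n3 n4), ?_⟩
  intro n hn h hh0 hkh
  have m1 : n1 ≤ n := ((le_max_left _ _).trans (le_max_left _ _)).trans hn
  have m2 : n2 ≤ n := ((le_max_right _ _).trans (le_max_left _ _)).trans hn
  have m3 : n3 ≤ n := ((le_max_left _ _).trans (le_max_right _ _)).trans hn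
  have m4 : n4 ≤ n := ((le_max_right _ _).trans (le_max_right _ _)).trans hn
  rcases le_total h ((c - ε) * n) with h1 | h1
  · exact H1 n m1 h hh0 h1
  rcases le_total h ((c + ε) * n) with h2 | h2
  · refine H3 n m3 h (abs_le.mpr ⟨?_, ?_⟩) <;> linarith
  rcases le_total ((k : ℝ) * h) ((1 - ξ) * n) with h3 | h3
  · exact H2 n m2 h h2 h3
  · exact H4 n m4 h h3 hkh

end Pool.Agent.Q206.XK
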