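import Pool.Agent.Q113.XK.Stm

/-! Project XK (owner helper113): common lemmas for the jobs KR2, KR3, KR4. -/

set_option autoImplicit false

namespace Pool.Agent.Q206.XK

open Finset Pool.Agent.Q113.XM Pool.Agent.Q113.XU Pool.Agent.Q113.XV Pool.Agent.Q54.EM
  Pool.Agent.W890.SF Pool.Agent.W593.IR Pool.Agent.Q113.XK

/-- weak duality -/
theorem dual {n : ℕ} {F : Finset (Finset (Fin n))} {t : ℝ} (hF : HasF F t) {y : Fin n → ℝ}
    (hy : ∀ v, 0 ≤ y v) (hc : ∀ e ∈ F, 1 ≤ ∑ v ∈ e, y v) : t ≤ ∑ v, y v := by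
  classical
  obtain ⟨w, hw0, hw1, hw2⟩ := hF
  have h1 : ∑ e ∈ F, w e ≤ ∑ e ∈ F, ∑ v ∈ e, w e * y v := by
    apply sum_le_sum
    intro e he
    rw [← mul_sum]
    have := mul_le_mul_of_nonneg_left (hc e he) (hw0 e)
    linarith
  have h2 : ∑ e ∈ F, ∑ v ∈ e, w e * y v = ∑ v, (∑ e ∈ F.filter (fun e => v ∈ e), w e) * y v := by
    have h3 : ∀ e ∈ F, ∑ v ∈ e, w e * y v = ∑ v, if v ∈ e then w e * y v else 0 := by
      intro e _
      rw [← sum_filter]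
      congr 1
      ext v
      simp
    rw [sum_congr rfl h3, sum_comm]
    apply sum_congr rfl
    intro v _
    rw [sum_mul, sum_filter]
  rw [h2] at h1
  have h4 : ∑ v, (∑ e ∈ F.filter (fun e => v ∈ e), w e) * y v ≤ ∑ v, y v := by
    apply sum_le_sum
    intro v _
    have := mul_le_mul_of_nonneg_right (hw1 v) (hy v)
    linarith
  linarith

/-- disjoint members of `F` -/
theorem hasM_dual {n : ℕ} {F : Finset (Finset (Fin n))} {s : ℕ} (hF : HasM F s) {y : Fin n → ℝ}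
    (hy : ∀ v, 0 ≤ y v) (hc : ∀ e ∈ F, 1 ≤ ∑ v ∈ e, y v) : (s : ℝ) ≤ ∑ v, y v := by
  classical
  obtain ⟨M, hMF, hM, hs⟩ := hF
  have h1 : (s : ℝ) ≤ ∑ e ∈ M, ∑ v ∈ e, y v := by
    rw [← hs]
    have h2 : ∑ e ∈ M, (1 : ℝ) ≤ ∑ e ∈ M, ∑ v ∈ e, y v :=
      sum_le_sum fun e he => hc e (hMF he)
    simpa using h2
  have h3 : ∑ e ∈ M, ∑ v ∈ e, y v = ∑ v ∈ M.biUnion id, y v := by
    rw [sum_biUnion]
    · rfl
    · intro e he e' he' hne
      exact hM e he e' he' hne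
  rw [h3] at h1
  exact h1.trans (sum_le_sum_of_subset_of_nonneg (subset_univ _) fun v _ _ => hy v)

theorem LF_unif {n k : ℕ} (y : Fin n → ℝ) : Unif k (LF k y) := by
  intro e he
  unfold LF at he
  rw [mem_filter, mem_powersetCard] at he
  exact he.1.2

theorem LF_cover {n k : ℕ} (y : Fin n → ℝ) : ∀ e ∈ LF k y, 1 ≤ ∑ v ∈ e, y v := by
  intro e he
  unfold LF at he
  rw [mem_filter] at he
  exact he.2

/-- the number `s` used with a given `m` -/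
theorem arith {k m : ℕ} (hk : 1 ≤ k) (hkm : k ≤ m + 1) :
    k * ((m + 1) / k - 1 + 1) ≤ m + 1 ∧ m + 2 ≤ k * ((m + 1) / k - 1) + 2 * k ∧
      k * ((m + 1) / k - 1 + 1) - 1 ≤ m := by
  have h1 : 1 ≤ (m + 1) / k := (Nat.one_le_div_iff (by omega)).mpr hkm
  have h2 : (m + 1) / k - 1 + 1 = (m + 1) / k := by omega
  have h3 : k * ((m + 1) / k) ≤ m + 1 := Nat.mul_div_le _ _
  have h4 : m + 1 < k * ((m + 1) / k) + k := by
    have := Nat.lt_mul_div_succ (m + 1) (show 0 < k by omega)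
    linarith
  have h5 : k * ((m + 1) / k - 1) + k = k * ((m + 1) / k) := by
    rw [Nat.mul_sub, mul_one]
    have : k ≤ k * ((m + 1) / k) := Nat.le_mul_of_pos_right k h1
    omega
  rw [h2]
  refine ⟨h3, ?_, ?_⟩ <;> omega

theorem floor_lt_of {k : ℕ} {h : ℝ} {n : ℕ} (h1 : (k : ℝ) * h < n) (h0 : 0 ≤ h) :
    ⌊(k : ℝ) * h⌋₊ + 1 ≤ n := by
  have : ⌊(k : ℝ) * h⌋₊ < n := (Nat.floor_lt (by positivity)).mpr h1
  omega

/-- the end of the proofs on the clique side -/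
theorem fin_clq {n k : ℕ} (hk : 1 ≤ k) {y : Fin n → ℝ} (hy : ∀ v, 0 ≤ y v) {h : ℝ}
    (hh : ∑ v, y v = h) (hF : HasF (LF k y) (((⌊(k : ℝ) * h⌋₊ : ℝ) + 1) / k)) : False := by
  have h1 := dual hF hy (LF_cover y)
  rw [hh] at h1
  have hk0 : (0 : ℝ) < k := by exact_mod_cast hk
  rw [div_le_iff₀ hk0] at h1
  have h2 := Nat.lt_floor_add_one ((k : ℝ) * h)
  linarith

end Pool.Agent.Q206.XK
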